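import Pool.Agent.H242.GX.Stm4

/-!
# Project GX (helper242), part 4: derivative bounds of products and compositions (adaptation of H784/GX/FLATMUL)
-/

set_option autoImplicit false

open Set Filter Topology
open scoped ContDiff
open Pool.Agent.H242.GX

namespace Pool.Agent.H118.GX

/-- Uniform bounds for finitely many orders. -/
theorem unif {α : Type} (P : α → Prop) (F : ℕ → α → ℝ) (w : ℕ → α → ℝ) (hw : ∀ i x, 0 ≤ w i x)
    (h : ∀ i : ℕ, ∃ C : ℝ, ∀ x, P x → F i x ≤ C * w i x) (n : ℕ) :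
    ∃ C : ℝ, 0 ≤ C ∧ ∀ i ≤ n, ∀ x, P x → F i x ≤ C * w i x := by
  choose C hC using h
  refine ⟨∑ i ∈ Finset.range (n + 1), |C i|, Finset.sum_nonneg (fun i _ => abs_nonneg _),
    fun i hi x hx => ?_⟩
  refine (hC i x hx).trans (mul_le_mul_of_nonneg_right ?_ (hw i x))
  exact (le_abs_self _).trans (Finset.single_le_sum (f := fun i => |C i|)
    (fun j _ => abs_nonneg _) (Finset.mem_range.2 (by omega)))

theorem natle (n : ℕ) : ((n : ℕ∞) : WithTop ℕ∞) ≤ (∞ : WithTop ℕ∞) := by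
  exact_mod_cast le_top

theorem comp_bd (g : ℝ × ℝ → ℝ) (L : ℝ × ℝ → ℝ × ℝ) (s t : Set (ℝ × ℝ)) (hs : IsOpen s)
    (ht : IsOpen t) (hg : ContDiffOn ℝ ∞ g t) (hL : ContDiffOn ℝ ∞ L s) (hm : MapsTo L s t)
    (n : ℕ) (x : ℝ × ℝ) (hx : x ∈ s) (C D : ℝ)
    (hC : ∀ i ≤ n, ‖iteratedFDeriv ℝ i g (L x)‖ ≤ C)
    (hD : ∀ i, 1 ≤ i → i ≤ n → ‖iteratedFDeriv ℝ i L x‖ ≤ D ^ i) :
    ‖iteratedFDeriv ℝ n (fun y => g (L y)) x‖ ≤ (n.factorial : ℝ) * C * D ^ n := by
  have h := norm_iteratedFDerivWithin_comp_le hg hL (natle n) ht.uniqueDiffOn hs.uniqueDiffOn hm hx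
    (C := C) (D := D)
    (fun i hi => by
      rw [iteratedFDerivWithin_of_isOpen i ht (hm hx)]
      exact hC i hi)
    (fun i h1 hi => by
      rw [iteratedFDerivWithin_of_isOpen i hs hx]
      exact hD i h1 hi)
  rw [iteratedFDerivWithin_of_isOpen n hs hx] at h
  exact h

theorem mul_bd (f g : ℝ × ℝ → ℝ) (s : Set (ℝ × ℝ)) (hs : IsOpen s)
    (hf : ContDiffOn ℝ ∞ f s) (hg : ContDiffOn ℝ ∞ g s) (n : ℕ) (x : ℝ × ℝ) (hx : x ∈ s) :
    ‖iteratedFDeriv ℝ n (fun y => f y * g y) x‖ ≤ ∑ i ∈ Finset.range (n + 1),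
      (n.choose i : ℝ) * ‖iteratedFDeriv ℝ i f x‖ * ‖iteratedFDeriv ℝ (n - i) g x‖ := by
  have h := norm_iteratedFDerivWithin_mul_le hf hg hs.uniqueDiffOn hx (natle n)
  rw [iteratedFDerivWithin_of_isOpen n hs hx] at h
  refine h.trans (le_of_eq ?_)
  refine Finset.sum_congr rfl fun i _ => ?_
  rw [iteratedFDerivWithin_of_isOpen i hs hx, iteratedFDerivWithin_of_isOpen (n - i) hs hx]

theorem gx_FLATMULK : S_FLATMULK := by
  intro κ χ g L b s₁ hκ hb hχ hχ0 hχb hg hgb hL hLb ⟨C₀, hC₀, hLc⟩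
  -- the choice of w₀
  obtain ⟨w₀, hw0, hw1, hw2⟩ : ∃ w₀ : ℝ, w₀ < 0 ∧ w₀ + C₀ ≤ s₁ ∧
      C₀ * Real.exp w₀ ≤ b - 2 * Real.pi := by
    refine ⟨min (-1) (min (s₁ - C₀) (Real.log ((b - 2 * Real.pi) / C₀))), ?_, ?_, ?_⟩
    · exact lt_of_le_of_lt (min_le_left _ _) (by norm_num)
    · have := (min_le_right (-1 : ℝ) (min (s₁ - C₀) (Real.log ((b - 2 * Real.pi) / C₀)))).trans
        (min_le_left _ _)
      linarith
    · have h1 := (min_le_right (-1 : ℝ) (min (s₁ - C₀) (Real.log ((b - 2 * Real.pi) / C₀)))).trans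
        (min_le_right _ _)
      have h2 := Real.exp_le_exp.2 h1
      rw [Real.exp_log (div_pos (by linarith) hC₀)] at h2
      calc _ ≤ C₀ * ((b - 2 * Real.pi) / C₀) := mul_le_mul_of_nonneg_left h2 hC₀.le
        _ = b - 2 * Real.pi := by field_simp
  -- the open sets
  obtain ⟨t, ht⟩ : ∃ t : Set (ℝ × ℝ), t = {x | x.1 < b ∧ x.2 < s₁} := ⟨_, rfl⟩
  obtain ⟨s, hs⟩ : ∃ s : Set (ℝ × ℝ), s = {x | x.2 < w₀ ∧ 0 < x.1 ∧ x.1 < 2 * Real.pi} :=
    ⟨_, rfl⟩
  have hto : IsOpen t := by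
    rw [ht]
    exact (isOpen_lt continuous_fst continuous_const).inter
      (isOpen_lt continuous_snd continuous_const)
  have hso : IsOpen s := by
    rw [hs]
    exact (isOpen_lt continuous_snd continuous_const).inter
      ((isOpen_lt continuous_const continuous_fst).inter
        (isOpen_lt continuous_fst continuous_const))
  have hmaps : MapsTo L s t := by
    intro x hx
    rw [hs] at hx
    rw [ht]
    obtain ⟨h1, h2, h3⟩ := hx
    obtain ⟨h4, h5⟩ := hLc x (h1.trans hw0)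
    have h6 := (abs_le.1 h4).2
    have h7 := (abs_le.1 h5).2
    have h8 : C₀ * Real.exp x.2 ≤ C₀ * Real.exp w₀ :=
      mul_le_mul_of_nonneg_left (Real.exp_le_exp.2 h1.le) hC₀.le
    constructor
    · show (L x).1 < b
      linarith
    · show (L x).2 < s₁
      linarith
  have hgt : ContDiffOn ℝ ∞ g t := by rw [ht]; exact hg
  have hLs : ContDiffOn ℝ ∞ L s := hL.mono (fun x hx => by
    rw [hs] at hx
    exact hx.1.trans hw0)
  have hgL : ContDiffOn ℝ ∞ (fun x => g (L x)) s := hgt.comp hLs hmaps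
  -- outside of s the function vanishes locally
  have hzero : ∀ x : ℝ × ℝ, x.2 < w₀ → x ∉ s → (fun x => χ x * g (L x)) =ᶠ[𝓝 x] fun _ => 0 := by
    intro x hx hxs
    have hcases : x.1 ≤ 0 ∨ 2 * Real.pi ≤ x.1 := by
      by_contra hcon
      push Not at hcon
      apply hxs
      rw [hs]
      exact ⟨hx, hcon.1, hcon.2⟩
    have hce : Continuous (fun y : ℝ × ℝ => κ * Real.exp y.2) :=
      continuous_const.mul (Real.continuous_exp.comp continuous_snd)
    rcases hcases with h | h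
    · have ho : IsOpen {y : ℝ × ℝ | y.1 < κ * Real.exp y.2} :=
        isOpen_lt continuous_fst hce
      have hm : x ∈ {y : ℝ × ℝ | y.1 < κ * Real.exp y.2} :=
        lt_of_le_of_lt h (mul_pos hκ (Real.exp_pos _))
      filter_upwards [ho.mem_nhds hm] with y hy
      rw [hχ0 y (Or.inl (le_of_lt hy)), zero_mul]
    · have ho : IsOpen {y : ℝ × ℝ | 2 * Real.pi < y.1 + κ * Real.exp y.2} :=
        isOpen_lt continuous_const (continuous_fst.add hce)
      have hm : x ∈ {y : ℝ × ℝ | 2 * Real.pi < y.1 + κ * Real.exp y.2} := by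
        have := mul_pos hκ (Real.exp_pos x.2)
        show 2 * Real.pi < x.1 + κ * Real.exp x.2
        linarith
      filter_upwards [ho.mem_nhds hm] with y hy
      rw [hχ0 y (Or.inr (le_of_lt hy)), zero_mul]
  refine ⟨w₀, hw0, ?_, ?_⟩
  · intro x hx
    by_cases hxs : x ∈ s
    · have h1 : ContDiffOn ℝ ∞ (fun x => χ x * g (L x)) s := hχ.contDiffOn.mul hgL
      exact (h1.contDiffAt (hso.mem_nhds hxs)).contDiffWithinAt
    · have h1 : ContDiffAt ℝ ∞ (fun x => χ x * g (L x)) x :=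
        (contDiffAt_const (c := (0 : ℝ))).congr_of_eventuallyEq (hzero x hx hxs)
      exact h1.contDiffWithinAt
  · intro n N
    -- constants
    obtain ⟨A, hA0, hA⟩ := unif (fun x : ℝ × ℝ => x.2 ≤ 0) (fun i x => ‖iteratedFDeriv ℝ i χ x‖)
      (fun i x => Real.exp (-(i : ℝ) * x.2)) (fun i x => (Real.exp_pos _).le) hχb n
    obtain ⟨B, hB0, hB⟩ := unif (fun x : ℝ × ℝ => x ∈ t) (fun i x => ‖iteratedFDeriv ℝ i g x‖)
      (fun _ x => Real.exp (((N + n : ℕ) : ℝ) * x.2)) (fun i x => (Real.exp_pos _).le)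
      (fun i => by
        obtain ⟨C, hC⟩ := hgb i (N + n)
        refine ⟨C, fun x hx => ?_⟩
        rw [ht] at hx
        exact hC x hx.1 hx.2) n
    obtain ⟨D, hD0, hD⟩ := unif (fun x : ℝ × ℝ => x.2 < 0)
      (fun i x => ‖iteratedFDeriv ℝ (i + 1) L x‖)
      (fun _ _ => 1) (fun _ _ => zero_le_one)
      (fun i => by
        obtain ⟨C, hC⟩ := hLb (i + 1) (by omega)
        exact ⟨C, fun x hx => by rw [mul_one]; exact hC x hx⟩) n
    obtain ⟨K, hK⟩ : ∃ K : ℝ, K = B * Real.exp (((N + n : ℕ) : ℝ) * C₀) := ⟨_, rfl⟩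
    have hK0 : 0 ≤ K := by rw [hK]; positivity
    -- composition
    have hcomp : ∀ m ≤ n, ∀ x ∈ s, ‖iteratedFDeriv ℝ m (fun y => g (L y)) x‖ ≤
        ((n.factorial : ℝ) * K * (1 + D) ^ n) * Real.exp (((N + n : ℕ) : ℝ) * x.2) := by
      intro m hm x hx
      have hx2 : x.2 < 0 := by
        rw [hs] at hx
        exact hx.1.trans hw0
      have h1 : ∀ i ≤ m, ‖iteratedFDeriv ℝ i g (L x)‖ ≤
          K * Real.exp (((N + n : ℕ) : ℝ) * x.2) := by
        intro i hi
        refine (hB i (by omega) (L x) (hmaps hx)).trans ?_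
        have h2 := (abs_le.1 (hLc x hx2).2).2
        have h3 : Real.exp (((N + n : ℕ) : ℝ) * (L x).2) ≤
            Real.exp (((N + n : ℕ) : ℝ) * C₀) * Real.exp (((N + n : ℕ) : ℝ) * x.2) := by
          rw [← Real.exp_add, ← mul_add]
          apply Real.exp_le_exp.2
          exact mul_le_mul_of_nonneg_left (by linarith) (Nat.cast_nonneg _)
        rw [hK, mul_assoc]
        exact mul_le_mul_of_nonneg_left h3 hB0
      have h4 : ∀ i, 1 ≤ i → i ≤ m → ‖iteratedFDeriv ℝ i L x‖ ≤ (1 + D) ^ i := by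
        intro i h1i hi
        obtain ⟨j, rfl⟩ : ∃ j, i = j + 1 := ⟨i - 1, by omega⟩
        have h5 := hD j (by omega) x hx2
        rw [mul_one] at h5
        refine h5.trans ((by linarith : D ≤ 1 + D).trans ?_)
        exact le_self_pow₀ (by linarith) (by omega)
      refine (comp_bd g L s t hso hto hgt hLs hmaps m x hx _ (1 + D) h1 h4).trans ?_
      have h6 : (m.factorial : ℝ) ≤ (n.factorial : ℝ) := by
        exact_mod_cast Nat.factorial_le hm
      have h7 : (1 + D) ^ m ≤ (1 + D) ^ n := pow_le_pow_right₀ (by linarith) hm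
      have h8 : 0 ≤ Real.exp (((N + n : ℕ) : ℝ) * x.2) := (Real.exp_pos _).le
      calc (m.factorial : ℝ) * (K * Real.exp (((N + n : ℕ) : ℝ) * x.2)) * (1 + D) ^ m
          ≤ (n.factorial : ℝ) * (K * Real.exp (((N + n : ℕ) : ℝ) * x.2)) * (1 + D) ^ n := by
            apply mul_le_mul _ h7 (by positivity) (by positivity)
            exact mul_le_mul_of_nonneg_right h6 (by positivity)
        _ = _ := by ring
    obtain ⟨M, hM⟩ : ∃ M : ℝ, M = (n.factorial : ℝ) * K * (1 + D) ^ n := ⟨_, rfl⟩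
    have hM0 : 0 ≤ M := by rw [hM]; positivity
    rw [← hM] at hcomp
    refine ⟨∑ i ∈ Finset.range (n + 1), (n.choose i : ℝ) * A * M, fun x hx => ?_⟩
    have hx2 : x.2 < 0 := hx.trans hw0
    by_cases hxs : x ∈ s
    · refine (mul_bd χ (fun y => g (L y)) s hso hχ.contDiffOn hgL n x hxs).trans ?_
      rw [Finset.sum_mul]
      apply Finset.sum_le_sum
      intro i hi
      rw [Finset.mem_range] at hi
      have h1 := hA i (by omega) x hx2.le
      have h2 := hcomp (n - i) (by omega) x hxs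
      have h3 : Real.exp (-(i : ℝ) * x.2) * Real.exp (((N + n : ℕ) : ℝ) * x.2) ≤
          Real.exp ((N : ℝ) * x.2) := by
        rw [← Real.exp_add]
        apply Real.exp_le_exp.2
        have h4 : (i : ℝ) ≤ n := by exact_mod_cast (by omega : i ≤ n)
        push_cast
        nlinarith
      calc (n.choose i : ℝ) * ‖iteratedFDeriv ℝ i χ x‖ *
            ‖iteratedFDeriv ℝ (n - i) (fun y => g (L y)) x‖
          ≤ (n.choose i : ℝ) * (A * Real.exp (-(i : ℝ) * x.2)) *
            (M * Real.exp (((N + n : ℕ) : ℝ) * x.2)) := by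
            apply mul_le_mul _ h2 (norm_nonneg _) (by positivity)
            exact mul_le_mul_of_nonneg_left h1 (by positivity)
        _ = ((n.choose i : ℝ) * A * M) *
            (Real.exp (-(i : ℝ) * x.2) * Real.exp (((N + n : ℕ) : ℝ) * x.2)) := by ring
        _ ≤ ((n.choose i : ℝ) * A * M) * Real.exp ((N : ℝ) * x.2) :=
            mul_le_mul_of_nonneg_left h3 (by positivity)
    · have h1 := ((hzero x hx hxs).iteratedFDeriv ℝ n).eq_of_nhds
      rw [h1]
      have h2 : iteratedFDeriv ℝ n (fun _ : ℝ × ℝ => (0 : ℝ)) x = 0 := by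
        rw [iteratedFDeriv_fun_zero]
        rfl
      rw [h2, norm_zero]
      have h3 : 0 ≤ ∑ i ∈ Finset.range (n + 1), (n.choose i : ℝ) * A * M :=
        Finset.sum_nonneg (fun i _ => by positivity)
      exact mul_nonneg h3 (Real.exp_pos _).le

end Pool.Agent.H118.GX
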